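import Pool.Agent.W744.BU.Stm

set_option autoImplicit false

open Set Filter Topology

namespace Pool.Agent.W94.BU.QBQ

open Pool.Agent.W744.BU

theorem main : S_QBQ := by
  intro B C _ _ f x Q hx hQ hQQ r hr0 hr1
  have hfx : f x ∈ unitary C := by
    rw [Unitary.mem_iff] at hx ⊢
    constructor
    · rw [← map_star, ← map_mul, hx.1, map_one]
    · rw [← map_star, ← map_mul, hx.2, map_one]
  have hn : ∀ {A : Type} [CStarAlgebra A] (y : A), y ∈ unitary A → ‖(r : ℂ) • y‖ < 1 := by
    intro A _ y hy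
    rcases subsingleton_or_nontrivial A with hs | hs
    · rw [Subsingleton.elim ((r : ℂ) • y) 0, norm_zero]
      exact one_pos
    · rw [norm_smul, CStarRing.norm_of_mem_unitary hy, mul_one, Complex.norm_real,
        Real.norm_of_nonneg hr0]
      exact hr1
  have hB := hn x hx
  have hC := hn (f x) hfx
  have hu : IsUnit ((1 : B) - (r : ℂ) • x) := isUnit_one_sub_of_norm_lt_one hB
  set S : C := ∑' n : ℕ, ((r : ℂ) • f x) ^ n with hS
  have hsum : HasSum (fun n : ℕ => ((r : ℂ) • f x) ^ n) S :=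
    (summable_geometric_of_norm_lt_one hC).hasSum
  have h1 : f (Ring.inverse ((1 : B) - (r : ℂ) • x)) = S := by
    have ha : ((1 : C) - (r : ℂ) • f x) * f (Ring.inverse ((1 : B) - (r : ℂ) • x)) = 1 := by
      have := congrArg f (Ring.mul_inverse_cancel _ hu)
      rw [map_mul, map_one, map_sub, map_one, map_smul] at this
      exact this
    have hb : S * ((1 : C) - (r : ℂ) • f x) = 1 := geom_series_mul_neg _ hC
    calc f (Ring.inverse ((1 : B) - (r : ℂ) • x))
        = (S * ((1 : C) - (r : ℂ) • f x)) * f (Ring.inverse ((1 : B) - (r : ℂ) • x)) := by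
          rw [hb, one_mul]
      _ = S := by rw [mul_assoc, ha, mul_one]
  have h2 : Q * S * Q = Q := by
    have e1 : HasSum (fun n : ℕ => Q * ((r : ℂ) • f x) ^ n * Q) (Q * S * Q) :=
      (hsum.mul_left Q).mul_right Q
    have e2 : HasSum (fun n : ℕ => Q * ((r : ℂ) • f x) ^ n * Q) (Q * ((r : ℂ) • f x) ^ 0 * Q) := by
      refine hasSum_single 0 fun n hn0 => ?_
      rw [smul_pow, mul_smul_comm, smul_mul_assoc, hQ n (Nat.one_le_iff_ne_zero.mpr hn0),
        smul_zero]
    rw [e1.unique e2, pow_zero, mul_one, hQQ]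
  have h3 : Q * (f x * S) * Q = 0 := by
    have e1 : HasSum (fun n : ℕ => Q * (f x * ((r : ℂ) • f x) ^ n) * Q) (Q * (f x * S) * Q) :=
      ((hsum.mul_left (f x)).mul_left Q).mul_right Q
    have e2 : HasSum (fun n : ℕ => Q * (f x * ((r : ℂ) • f x) ^ n) * Q) 0 := by
      have : (fun n : ℕ => Q * (f x * ((r : ℂ) • f x) ^ n) * Q) = fun _ => 0 := by
        funext n
        rw [smul_pow, mul_smul_comm, mul_smul_comm, smul_mul_assoc, ← pow_succ',
          hQ (n + 1) (Nat.succ_le_succ (Nat.zero_le n)), smul_zero]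
      rw [this]
      exact hasSum_zero
    exact e1.unique e2
  have h4 : f (bF r x) = (r : ℂ) • S - f x * S := by
    rw [bF, map_mul, h1, map_sub, map_smul, map_one, sub_mul, smul_mul_assoc, one_mul]
  rw [h4, mul_sub, sub_mul, h3, sub_zero, mul_smul_comm, smul_mul_assoc, h2]

end Pool.Agent.W94.BU.QBQ
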